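import Mathlib

/-!
# Odd induced subgraphs of cographs without isolated vertices

The least possible order of a largest odd induced subgraph of a cograph on `n ≥ 2` vertices without
isolated vertices is `2 ⌈n / 6⌉`.
-/

set_option autoImplicit false
set_option linter.unusedSectionVars false

namespace Pool.Agent.Results.MP_007251_co.OddCograph

open SimpleGraph Finset

section Defs

variable {V : Type} [Fintype V]

open scoped Classical in
/-- number of neighbours of `v` in `S` -/
noncomputable def dIn (G : SimpleGraph V) (S : Finset V) (v : V) : ℕ :=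
  (S.filter fun w => G.Adj v w).card

/-- the subgraph induced on `S` has only odd degrees -/
def IsOddSet (G : SimpleGraph V) (S : Finset V) : Prop := ∀ v ∈ S, Odd (dIn G S v)

/-- `mos G`: the largest number of vertices of an odd induced subgraph -/
noncomputable def mos (G : SimpleGraph V) : ℕ := sSup {k | ∃ S : Finset V, S.card = k ∧ IsOddSet G S}

/-- a cograph: no induced path on four vertices -/
def IsCograph (G : SimpleGraph V) : Prop := IsEmpty (pathGraph 4 ↪g G)

/-- no isolated vertices -/
def NoIsolated (G : SimpleGraph V) : Prop := ∀ v, ∃ w, G.Adj v w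

end Defs

/-- the least value of `mos G` over all cographs on `n` vertices without isolated vertices -/
noncomputable def m (n : ℕ) : ℕ :=
  sInf {k | ∃ G : SimpleGraph (Fin n), IsCograph G ∧ NoIsolated G ∧ mos G = k}

/-! ### Gallai's theorem -/

/-- The diagonal of a symmetric matrix over the field with two elements is in its range. -/
theorem diag_mem_range {V : Type} [Fintype V] (M : Matrix V V (ZMod 2)) (hM : ∀ i j, M i j = M j i) :
    ∃ x : V → ZMod 2, M.mulVec x = fun v => M v v := by
  classical
  by_contra hcon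
  push Not at hcon
  have hnot : (fun v => M v v) ∉ LinearMap.range M.mulVecLin := by
    rintro ⟨x, hx⟩
    exact hcon x (by simpa using hx)
  obtain ⟨f, hf, hf2⟩ := Submodule.exists_le_ker_of_notMem hnot
  set y : V → ZMod 2 := fun i => f (Pi.single i 1) with hy
  have hfy : ∀ z : V → ZMod 2, f z = ∑ i, z i * y i := by
    intro z
    conv_lhs => rw [← Finset.univ_sum_single z]
    rw [map_sum]
    apply sum_congr rfl
    intro i _
    have : Pi.single i (z i) = z i • (Pi.single i (1 : ZMod 2) : V → ZMod 2) := by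
      rw [← Pi.single_smul]; simp
    rw [this, map_smul, smul_eq_mul]
  have h0 : f (M.mulVec y) = 0 := by
    have : M.mulVec y ∈ LinearMap.ker f := hf2 ⟨y, by simp⟩
    simpa using this
  apply hf
  rw [hfy]
  rw [hfy] at h0
  have h1 : ∑ i, M.mulVec y i * y i = ∑ p ∈ (univ ×ˢ univ : Finset (V × V)), M p.1 p.2 * y p.2 * y p.1 := by
    rw [sum_product]
    apply sum_congr rfl
    intro i _
    simp only [Matrix.mulVec, dotProduct]
    rw [sum_mul]
  rw [h1, ← diag_union_offDiag, sum_union (disjoint_diag_offDiag _)] at h0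
  have h2 : ∑ p ∈ (univ : Finset V).offDiag, M p.1 p.2 * y p.2 * y p.1 = 0 := by
    apply Finset.sum_involution (fun p _ => (p.2, p.1))
    · rintro ⟨i, j⟩ _
      simp only
      rw [hM j i, mul_right_comm]
      exact CharTwo.add_self_eq_zero _
    · rintro ⟨i, j⟩ hij _ h
      simp only [mem_offDiag, mem_univ, true_and] at hij
      simp only [Prod.mk.injEq] at h
      exact hij h.1.symm
    · rintro ⟨i, j⟩ hij
      simp only [mem_offDiag, mem_univ, true_and] at hij ⊢
      exact hij.symm
    · rintro ⟨i, j⟩ _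
      rfl
  rw [h2, add_zero, sum_diag] at h0
  rw [← h0]
  apply sum_congr rfl
  intro i _
  have : y i * y i = y i := by
    generalize y i = a
    revert a; decide
  rw [mul_assoc, this]

section Lower

variable {V : Type} [Fintype V]

open scoped Classical in
/-- **Gallai**: the vertices can be split in `E` and its complement such that the graph induced on
`E` has even degrees and the graph induced on the complement has odd degrees. -/
theorem gallai (G : SimpleGraph V) (A : Finset V) :
    ∃ E ⊆ A, (∀ v ∈ E, Even (dIn G E v)) ∧ IsOddSet G (A \ E) := by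
  set M : Matrix V V (ZMod 2) := fun i j =>
    if i ∈ A ∧ j ∈ A then (if G.Adj i j then 1 else 0) + (if i = j then (dIn G A i + 1 : ZMod 2) else 0) else 0
    with hMdef
  obtain ⟨x, hx⟩ := diag_mem_range M (by
    intro i j
    simp only [hMdef]
    by_cases h : i ∈ A ∧ j ∈ A
    · rw [if_pos h, if_pos h.symm]
      congr 1
      · simp [G.adj_comm]
      · by_cases hij : i = j
        · subst hij; rfl
        · rw [if_neg hij, if_neg (Ne.symm hij)]
    · rw [if_neg h, if_neg (fun h' => h h'.symm)])
  have hx01 : ∀ v, x v = if x v = 1 then 1 else 0 := by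
    intro v
    generalize x v = a
    revert a; decide
  set E : Finset V := A.filter fun v => x v = 1 with hE
  have hcount : ∀ v, ((dIn G E v : ℕ) : ZMod 2) = ∑ j ∈ A, (if G.Adj v j then 1 else 0) * x j := by
    intro v
    rw [dIn, Finset.card_filter, hE, Finset.sum_filter]
    push_cast
    apply Finset.sum_congr rfl
    intro j _
    rw [hx01 j]
    by_cases h1 : x j = 1 <;> by_cases h2 : G.Adj v j <;> simp [h1, h2]
  have hkey : ∀ v ∈ A, ((dIn G E v : ℕ) : ZMod 2) + (dIn G A v + 1) * x v = dIn G A v + 1 := by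
    intro v hv
    have := congrFun hx v
    simp only [Matrix.mulVec, dotProduct, hMdef] at this
    simp only [hv, and_self, true_and, if_true, G.irrefl, if_false, zero_add] at this
    have h2 : ∑ j ∈ univ.filter (fun j => ¬ j ∈ A), (if j ∈ A then (if G.Adj v j then 1 else 0) + (if v = j then (dIn G A v + 1 : ZMod 2) else 0) else 0) * x j = 0 := by
      apply Finset.sum_eq_zero
      intro j hj
      simp only [mem_filter, mem_univ, true_and] at hj
      simp [hj]
    have h3 : (univ.filter fun j => j ∈ A) = A := by ext; simp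
    have h4 : ∑ j ∈ A, (if j ∈ A then (if G.Adj v j then 1 else 0) + (if v = j then (dIn G A v + 1 : ZMod 2) else 0) else 0) * x j
        = ∑ j ∈ A, ((if G.Adj v j then 1 else 0) * x j + (if v = j then (dIn G A v + 1 : ZMod 2) * x j else 0)) := by
      apply Finset.sum_congr rfl
      intro j hj
      rw [if_pos hj, add_mul]
      congr 1
      by_cases h : v = j <;> simp [h]
    rw [← Finset.sum_filter_add_sum_filter_not univ (fun j => j ∈ A), h2, add_zero, h3, h4,
      Finset.sum_add_distrib, Finset.sum_ite_eq, if_pos hv, ← hcount] at this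
    exact this
  refine ⟨E, Finset.filter_subset _ _, ?_, ?_⟩
  · intro v hv
    rw [hE, mem_filter] at hv
    have := hkey v hv.1
    rw [hv.2, mul_one] at this
    have h0 : ((dIn G E v : ℕ) : ZMod 2) = 0 := by
      simpa using this
    rwa [ZMod.natCast_eq_zero_iff_even] at h0
  · intro v hv
    rw [mem_sdiff] at hv
    have hxv : x v = 0 := by
      rw [hx01 v, if_neg]
      intro h
      exact hv.2 (by rw [hE, mem_filter]; exact ⟨hv.1, h⟩)
    have := hkey v hv.1
    rw [hxv, mul_zero, add_zero] at this
    have hsum : dIn G E v + dIn G (A \ E) v = dIn G A v := by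
      simp only [dIn]
      rw [← Finset.card_union_of_disjoint]
      · congr 1
        rw [← Finset.filter_union, Finset.union_sdiff_of_subset (Finset.filter_subset _ _)]
      · exact Finset.disjoint_filter_filter Finset.disjoint_sdiff
    rw [← hsum] at this
    rw [← ZMod.natCast_eq_one_iff_odd]
    push_cast at this
    have h5 : ((dIn G (A \ E) v : ℕ) : ZMod 2) + 1 = 0 := by
      linear_combination -this
    have h6 : ((dIn G (A \ E) v : ℕ) : ZMod 2) = -1 := by
      linear_combination h5
    rw [h6]; decide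

/-- handshake -/
theorem sum_dIn (G : SimpleGraph V) (S : Finset V) : Even (∑ v ∈ S, dIn G S v) := by
  classical
  rw [← ZMod.natCast_eq_zero_iff_even]
  push_cast
  have h1 : ∀ v ∈ S, ((dIn G S v : ℕ) : ZMod 2) = ∑ w ∈ S, (if G.Adj v w then (1 : ZMod 2) else 0) := by
    intro v _
    rw [dIn, Finset.card_filter]
    push_cast
    rfl
  rw [Finset.sum_congr rfl h1, ← Finset.sum_product']
  apply Finset.sum_involution (fun p _ => (p.2, p.1))
  · rintro ⟨i, j⟩ _
    simp only
    rw [G.adj_comm j i]
    exact CharTwo.add_self_eq_zero _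
  · rintro ⟨i, j⟩ hij h0 h
    simp only [Prod.mk.injEq] at h
    simp only at h0
    rw [h.1] at h0
    simp at h0
  · rintro ⟨i, j⟩ hij
    simp only [mem_product] at hij ⊢
    exact hij.symm
  · rintro ⟨i, j⟩ _
    rfl

theorem even_card_of_isOddSet (G : SimpleGraph V) {S : Finset V} (hS : IsOddSet G S) : Even S.card := by
  have h := sum_dIn G S
  rw [← ZMod.natCast_eq_zero_iff_even] at h ⊢
  push_cast at h
  have h1 : ∀ v ∈ S, ((dIn G S v : ℕ) : ZMod 2) = 1 := by
    intro v hv
    rw [ZMod.natCast_eq_one_iff_odd]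
    exact hS v hv
  rw [Finset.sum_congr rfl h1] at h
  simpa using h

/-- inside a nonempty set `A`, an odd set `O` of even size and an even set `Q` of odd size -/
theorem pair_in (G : SimpleGraph V) (A : Finset V) (hA : A.Nonempty) :
    ∃ O Q : Finset V, O ⊆ A ∧ Q ⊆ A ∧ IsOddSet G O ∧ Even O.card ∧ (∀ v ∈ Q, Even (dIn G Q v)) ∧
      Odd Q.card ∧ A.card ≤ O.card + Q.card + 1 := by
  classical
  have main : ∀ A' : Finset V, Odd A'.card → ∃ O Q : Finset V, O ⊆ A' ∧ Q ⊆ A' ∧ IsOddSet G O ∧
      Even O.card ∧ (∀ v ∈ Q, Even (dIn G Q v)) ∧ Odd Q.card ∧ A'.card = O.card + Q.card := by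
    intro A' hA'
    obtain ⟨E, hE, h1, h2⟩ := gallai G A'
    have h3 := even_card_of_isOddSet G h2
    have h4 : (A' \ E).card + E.card = A'.card := Finset.card_sdiff_add_card_eq_card hE
    refine ⟨A' \ E, E, Finset.sdiff_subset, hE, h2, h3, h1, ?_, h4.symm⟩
    rw [Nat.odd_iff] at hA' ⊢
    rw [Nat.even_iff] at h3
    omega
  rcases Nat.even_or_odd A.card with h | h
  · obtain ⟨a, ha⟩ := hA
    have hc : (A.erase a).card = A.card - 1 := Finset.card_erase_of_mem ha
    have hpos : 0 < A.card := Finset.card_pos.mpr ⟨a, ha⟩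
    obtain ⟨O, Q, h1, h2, h3, h4, h5, h6, h7⟩ := main (A.erase a) (by
      rw [Nat.odd_iff, hc]; rw [Nat.even_iff] at h; omega)
    exact ⟨O, Q, h1.trans (Finset.erase_subset _ _), h2.trans (Finset.erase_subset _ _), h3, h4, h5, h6, by omega⟩
  · obtain ⟨O, Q, h1, h2, h3, h4, h5, h6, h7⟩ := main A h
    exact ⟨O, Q, h1, h2, h3, h4, h5, h6, by omega⟩

open scoped Classical in
theorem dIn_union (G : SimpleGraph V) {S T : Finset V} (h : Disjoint S T) (v : V) :
    dIn G (S ∪ T) v = dIn G S v + dIn G T v := by
  simp only [dIn]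
  rw [Finset.filter_union, Finset.card_union_of_disjoint]
  exact Finset.disjoint_filter_filter h

theorem dIn_all (G : SimpleGraph V) {T : Finset V} {v : V} (h : ∀ w ∈ T, G.Adj v w) :
    dIn G T v = T.card := by
  classical
  simp only [dIn]
  rw [Finset.filter_true_of_mem h]

theorem dIn_none (G : SimpleGraph V) {T : Finset V} {v : V} (h : ∀ w ∈ T, ¬ G.Adj v w) :
    dIn G T v = 0 := by
  classical
  simp only [dIn]
  rw [Finset.filter_false_of_mem h, Finset.card_empty]

open scoped Classical in
/-- a join has a large odd set -/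
theorem join_odd (G : SimpleGraph V) (A B : Finset V) (hA : A.Nonempty) (hB : B.Nonempty)
    (hAB : Disjoint A B) (hj : ∀ a ∈ A, ∀ b ∈ B, G.Adj a b) :
    ∃ S ⊆ A ∪ B, IsOddSet G S ∧ (A ∪ B).card ≤ 3 * S.card := by
  obtain ⟨O₁, Q₁, a1, a2, a3, a4, a5, a6, a7⟩ := pair_in G A hA
  obtain ⟨O₂, Q₂, b1, b2, b3, b4, b5, b6, b7⟩ := pair_in G B hB
  have hcard : (A ∪ B).card = A.card + B.card := Finset.card_union_of_disjoint hAB
  have hO : Disjoint O₁ O₂ := Finset.disjoint_of_subset_left a1 (Finset.disjoint_of_subset_right b1 hAB)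
  have hQ : Disjoint Q₁ Q₂ := Finset.disjoint_of_subset_left a2 (Finset.disjoint_of_subset_right b2 hAB)
  have hOc : (O₁ ∪ O₂).card = O₁.card + O₂.card := Finset.card_union_of_disjoint hO
  have hQc : (Q₁ ∪ Q₂).card = Q₁.card + Q₂.card := Finset.card_union_of_disjoint hQ
  have oddO : IsOddSet G (O₁ ∪ O₂) := by
    intro v hv
    rw [dIn_union G hO]
    rcases Finset.mem_union.mp hv with hv | hv
    · rw [dIn_all G (T := O₂) (v := v) (fun w hw => hj v (a1 hv) w (b1 hw))]
      exact (a3 v hv).add_even b4
    · rw [dIn_all G (T := O₁) (v := v) (fun w hw => (hj w (a1 hw) v (b1 hv)).symm)]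
      exact a4.add_odd (b3 v hv)
  have oddQ : IsOddSet G (Q₁ ∪ Q₂) := by
    intro v hv
    rw [dIn_union G hQ]
    rcases Finset.mem_union.mp hv with hv | hv
    · rw [dIn_all G (T := Q₂) (v := v) (fun w hw => hj v (a2 hv) w (b2 hw))]
      exact (a5 v hv).add_odd b6
    · rw [dIn_all G (T := Q₁) (v := v) (fun w hw => (hj w (a2 hw) v (b2 hv)).symm)]
      exact a6.add_even (b5 v hv)
  by_cases hsmall : (A ∪ B).card ≤ 6
  · obtain ⟨a, ha⟩ := hA
    obtain ⟨b, hb⟩ := hB
    have hab := hj a ha b hb
    refine ⟨{a, b}, ?_, ?_, ?_⟩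
    · intro z hz
      simp only [mem_insert, mem_singleton] at hz
      rcases hz with rfl | rfl
      · exact mem_union_left _ ha
      · exact mem_union_right _ hb
    · intro v hv
      simp only [mem_insert, mem_singleton] at hv
      have hne := hab.ne
      rcases hv with rfl | rfl
      · have : ({v, b} : Finset V).filter (fun w => G.Adj v w) = {b} := by
          ext z
          simp only [mem_filter, mem_insert, mem_singleton]
          constructor
          · rintro ⟨h | h, h2⟩
            · subst h; exact absurd h2 (G.irrefl)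
            · exact h
          · rintro rfl
            exact ⟨Or.inr rfl, hab⟩
        simp [dIn, this]
      · have : ({a, v} : Finset V).filter (fun w => G.Adj v w) = {a} := by
          ext z
          simp only [mem_filter, mem_insert, mem_singleton]
          constructor
          · rintro ⟨h | h, h2⟩
            · exact h
            · subst h; exact absurd h2 (G.irrefl)
          · rintro rfl
            exact ⟨Or.inl rfl, hab.symm⟩
        simp [dIn, this]
    · rw [Finset.card_pair hab.ne]
      omega
  · rcases le_total (O₁ ∪ O₂).card (Q₁ ∪ Q₂).card with h | h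
    · refine ⟨Q₁ ∪ Q₂, Finset.union_subset_union a2 b2, oddQ, ?_⟩
      omega
    · refine ⟨O₁ ∪ O₂, Finset.union_subset_union a1 b1, oddO, ?_⟩
      omega

/-- no induced `P₄`, elementary form -/
def P4free (G : SimpleGraph V) : Prop :=
  ∀ a b c d, G.Adj a b → G.Adj b c → G.Adj c d → ¬ G.Adj a c → ¬ G.Adj b d → ¬ G.Adj a d → False

theorem P4free_of_isCograph (G : SimpleGraph V) (h : IsCograph G) : P4free G := by
  intro a b c d hab hbc hcd hac hbd had
  have h1 : a ≠ c := by rintro rfl; exact had hcd
  have h2 : b ≠ d := by rintro rfl; exact had hab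
  have h3 : a ≠ d := by rintro rfl; exact hac hcd.symm
  refine h.false ⟨⟨![a, b, c, d], ?_⟩, ?_⟩
  · intro i j hij
    fin_cases i <;> fin_cases j <;>
      simp_all [hab.ne, hab.ne', hbc.ne, hbc.ne', hcd.ne, hcd.ne', Ne.symm]
  · intro i j
    change G.Adj (![a, b, c, d] i) (![a, b, c, d] j) ↔ _
    rw [pathGraph_adj]
    have hac' : ¬ G.Adj c a := fun h => hac h.symm
    have hbd' : ¬ G.Adj d b := fun h => hbd h.symm
    have had' : ¬ G.Adj d a := fun h => had h.symm
    fin_cases i <;> fin_cases j <;>
      simp [hab, hab.symm, hbc, hbc.symm, hcd, hcd.symm, hac, hac', hbd, hbd', had, had']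

theorem isCograph_of_P4free (G : SimpleGraph V) (h : P4free G) : IsCograph G := by
  refine ⟨fun f => ?_⟩
  have key : ∀ i j : Fin 4, G.Adj (f i) (f j) ↔ (pathGraph 4).Adj i j := fun i j => f.map_adj_iff
  refine h (f 0) (f 1) (f 2) (f 3) ?_ ?_ ?_ ?_ ?_ ?_ <;> rw [key, pathGraph_adj] <;> decide

theorem P4free_compl (G : SimpleGraph V) (h : P4free G) : P4free Gᶜ := by
  intro a b c d hab hbc hcd hac hbd had
  rw [compl_adj] at hab hbc hcd hac hbd had
  push Not at hac hbd had
  have h1 : a ≠ c := by
    rintro rfl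
    exact hcd.2 (had hcd.1)
  have h2 : b ≠ d := by
    rintro rfl
    exact hab.2 (had hab.1)
  have h3 : a ≠ d := by
    rintro rfl
    exact hcd.2 (hac h1).symm
  exact h c a d b (hac h1).symm (had h3) (hbd h2).symm hcd.2 hab.2 (fun h => hbc.2 h.symm)

open scoped Classical in
/-- one step of the cotree: adding a vertex to a set that splits without edges -/
theorem step_split (G : SimpleGraph V) (hG : P4free G) (W A B : Finset V) (v : V) (hv : v ∉ W)
    (hA : A.Nonempty) (hB : B.Nonempty) (hdisj : Disjoint A B) (hU : A ∪ B = W)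
    (hno : ∀ a ∈ A, ∀ b ∈ B, ¬ G.Adj a b) :
    ∃ A' B' : Finset V, A'.Nonempty ∧ B'.Nonempty ∧ Disjoint A' B' ∧ A' ∪ B' = insert v W ∧
      ((∀ a ∈ A', ∀ b ∈ B', G.Adj a b) ∨ (∀ a ∈ A', ∀ b ∈ B', ¬ G.Adj a b)) := by
  by_cases hall : ∀ w ∈ W, G.Adj v w
  · refine ⟨{v}, W, Finset.singleton_nonempty _, ?_, ?_, rfl, Or.inl ?_⟩
    · rw [← hU]; exact hA.mono Finset.subset_union_left
    · rw [Finset.disjoint_singleton_left]; exact hv
    · intro a ha b hb
      rw [mem_singleton] at ha
      subst ha
      exact hall b hb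
  push Not at hall
  obtain ⟨w', hw', hvw'⟩ := hall
  -- closed sets
  let closed : Finset V → Prop := fun C => C ⊆ W ∧ w' ∈ C ∧ ∀ c ∈ C, ∀ y ∈ W, G.Adj c y → y ∈ C
  have hprop : ∃ C, closed C ∧ C ≠ W := by
    rw [← hU] at hw'
    rcases Finset.mem_union.mp hw' with h | h
    · refine ⟨A, ⟨by rw [← hU]; exact Finset.subset_union_left, h, ?_⟩, ?_⟩
      · intro c hc y hy hcy
        rw [← hU] at hy
        rcases Finset.mem_union.mp hy with h2 | h2
        · exact h2
        · exact absurd hcy (hno c hc y h2)
      · intro h3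
        obtain ⟨b, hb⟩ := hB
        have : b ∈ A := by rw [h3, ← hU]; exact mem_union_right _ hb
        exact Finset.disjoint_left.mp hdisj this hb
    · refine ⟨B, ⟨by rw [← hU]; exact Finset.subset_union_right, h, ?_⟩, ?_⟩
      · intro c hc y hy hcy
        rw [← hU] at hy
        rcases Finset.mem_union.mp hy with h2 | h2
        · exact absurd hcy.symm (hno y h2 c hc)
        · exact h2
      · intro h3
        obtain ⟨a, ha⟩ := hA
        have : a ∈ B := by rw [h3, ← hU]; exact mem_union_left _ ha
        exact Finset.disjoint_left.mp hdisj ha this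
  obtain ⟨C₀, hC₀, hC₀W⟩ := hprop
  have hWcl : closed W := ⟨subset_rfl, hw', fun c _ y hy _ => hy⟩
  obtain ⟨C, hCcl, hCmin⟩ := Finset.exists_min_image (univ.filter closed) (fun C => C.card)
    ⟨W, by simp [hWcl]⟩
  simp only [mem_filter, mem_univ, true_and] at hCcl hCmin
  have hCW : C ⊂ W := by
    refine Finset.ssubset_iff_subset_ne.mpr ⟨hCcl.1, ?_⟩
    rintro rfl
    have h1 : C₀ ⊂ C := Finset.ssubset_iff_subset_ne.mpr ⟨hC₀.1, hC₀W⟩
    have h2 := Finset.card_lt_card h1
    have h3 := hCmin C₀ hC₀
    omega
  have hrest : (W \ C).Nonempty := Finset.sdiff_nonempty.mpr (fun h => hCW.2 h)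
  have hWC : C ∪ (W \ C) = W := Finset.union_sdiff_of_subset hCW.1
  have hnoC : ∀ a ∈ C, ∀ b ∈ W \ C, ¬ G.Adj a b := by
    intro a ha b hb hab
    rw [mem_sdiff] at hb
    exact hb.2 (hCcl.2.2 a ha b hb.1 hab)
  by_cases hvC : ∀ c ∈ C, ¬ G.Adj v c
  · refine ⟨C, insert v (W \ C), ⟨w', hCcl.2.1⟩, Finset.insert_nonempty _ _, ?_, ?_, Or.inr ?_⟩
    · rw [Finset.disjoint_insert_right]
      exact ⟨fun h => hv (hCcl.1 h), Finset.disjoint_sdiff⟩
    · rw [Finset.union_insert, hWC]
    · intro a ha b hb
      rcases Finset.mem_insert.mp hb with rfl | hb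
      · intro h
        exact hvC a ha h.symm
      · exact hnoC a ha b hb
  -- there are adjacent `u, w` in `C` with `v ~ u`, `v ≁ w`
  have hpair : ∃ u ∈ C, ∃ w ∈ C, G.Adj u w ∧ G.Adj v u ∧ ¬ G.Adj v w := by
    by_contra hcon
    push Not at hcon
    have hN : closed (C.filter fun z => ¬ G.Adj v z) := by
      refine ⟨(Finset.filter_subset _ _).trans hCcl.1, ?_, ?_⟩
      · rw [mem_filter]; exact ⟨hCcl.2.1, hvw'⟩
      · intro c hc y hy hcy
        rw [mem_filter] at hc ⊢
        have hyC := hCcl.2.2 c hc.1 y hy hcy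
        refine ⟨hyC, fun hvy => ?_⟩
        exact hc.2 (hcon y hyC c hc.1 hcy.symm hvy)
    have h1 := hCmin _ hN
    have h2 : (C.filter fun z => ¬ G.Adj v z) = C := Finset.eq_of_subset_of_card_le (Finset.filter_subset _ _) h1
    apply hvC
    intro c hc
    rw [← h2, mem_filter] at hc
    exact hc.2
  obtain ⟨u, hu, w, hw, huw, hvu, hvw⟩ := hpair
  refine ⟨insert v C, W \ C, Finset.insert_nonempty _ _, hrest, ?_, ?_, Or.inr ?_⟩
  · rw [Finset.disjoint_insert_left]
    exact ⟨fun h => hv (Finset.sdiff_subset h), Finset.disjoint_sdiff⟩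
  · rw [Finset.insert_union, hWC]
  · intro a ha b hb
    rcases Finset.mem_insert.mp ha with rfl | ha
    · intro hab
      refine hG b a u w hab.symm hvu huw ?_ hvw ?_
      · exact fun h => hnoC u hu b hb h.symm
      · exact fun h => hnoC w hw b hb h.symm
    · exact hnoC a ha b hb

open scoped Classical in
/-- the cotree structure -/
theorem split (G : SimpleGraph V) (hG : P4free G) (W : Finset V) (hW : 2 ≤ W.card) :
    ∃ A B : Finset V, A.Nonempty ∧ B.Nonempty ∧ Disjoint A B ∧ A ∪ B = W ∧
      ((∀ a ∈ A, ∀ b ∈ B, G.Adj a b) ∨ (∀ a ∈ A, ∀ b ∈ B, ¬ G.Adj a b)) := by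
  induction W using Finset.induction_on with
  | empty => simp at hW
  | insert v W hv ih =>
    rw [Finset.card_insert_of_notMem hv] at hW
    by_cases hW1 : W.card = 1
    · obtain ⟨w, rfl⟩ := Finset.card_eq_one.mp hW1
      refine ⟨{v}, {w}, Finset.singleton_nonempty _, Finset.singleton_nonempty _, ?_, rfl, ?_⟩
      · rw [Finset.disjoint_singleton_left]; exact hv
      · by_cases h : G.Adj v w
        · left; intro a ha b hb
          rw [mem_singleton] at ha hb
          subst ha hb; exact h
        · right; intro a ha b hb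
          rw [mem_singleton] at ha hb
          subst ha hb; exact h
    · obtain ⟨A, B, hA, hB, hd, hU, hor⟩ := ih (by omega)
      rcases hor with hor | hor
      · obtain ⟨A', B', h1, h2, h3, h4, h5⟩ := step_split Gᶜ (P4free_compl G hG) W A B v hv hA hB hd hU
          (fun a ha b hb => by
            rw [compl_adj]
            rintro ⟨_, h⟩
            exact h (hor a ha b hb))
        refine ⟨A', B', h1, h2, h3, h4, ?_⟩
        rcases h5 with h5 | h5
        · right
          intro a ha b hb
          have := h5 a ha b hb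
          rw [compl_adj] at this
          exact this.2
        · left
          intro a ha b hb
          have := h5 a ha b hb
          rw [compl_adj] at this
          push Not at this
          apply this
          rintro rfl
          exact Finset.disjoint_left.mp h3 ha hb
      · exact step_split G hG W A B v hv hA hB hd hU hor

open scoped Classical in
/-- the lower bound -/
theorem lower (G : SimpleGraph V) (hG : P4free G) :
    ∀ (k : ℕ) (W : Finset V), W.card = k → (∀ v ∈ W, ∃ w ∈ W, G.Adj v w) →
      ∃ S ⊆ W, IsOddSet G S ∧ W.card ≤ 3 * S.card := by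
  intro k
  induction k using Nat.strong_induction_on with
  | _ k ih =>
    intro W hk hiso
    rcases W.eq_empty_or_nonempty with rfl | hne
    · exact ⟨∅, subset_rfl, by intro v hv; simp at hv, by simp⟩
    obtain ⟨v, hv⟩ := hne
    obtain ⟨w, hw, hvw⟩ := hiso v hv
    have h2 : 2 ≤ W.card := by
      rw [← Finset.card_pair hvw.ne]
      apply Finset.card_le_card
      intro z hz
      simp only [mem_insert, mem_singleton] at hz
      rcases hz with rfl | rfl <;> assumption
    obtain ⟨A, B, hA, hB, hd, hU, hor⟩ := split G hG W h2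
    rcases hor with hor | hor
    · obtain ⟨S, hS, h3, h4⟩ := join_odd G A B hA hB hd hor
      rw [hU] at hS h4
      exact ⟨S, hS, h3, h4⟩
    · have hcard : A.card + B.card = W.card := by rw [← hU, Finset.card_union_of_disjoint hd]
      have hA0 := hA.card_pos
      have hB0 := hB.card_pos
      obtain ⟨S, hS, hS1, hS2⟩ := ih A.card (by omega) A rfl (by
        intro a ha
        obtain ⟨b, hb, hab⟩ := hiso a (by rw [← hU]; exact mem_union_left _ ha)
        rw [← hU] at hb
        rcases Finset.mem_union.mp hb with hb | hb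
        · exact ⟨b, hb, hab⟩
        · exact absurd hab (hor a ha b hb))
      obtain ⟨T, hT, hT1, hT2⟩ := ih B.card (by omega) B rfl (by
        intro a ha
        obtain ⟨b, hb, hab⟩ := hiso a (by rw [← hU]; exact mem_union_right _ ha)
        rw [← hU] at hb
        rcases Finset.mem_union.mp hb with hb | hb
        · exact absurd hab.symm (hor b hb a ha)
        · exact ⟨b, hb, hab⟩)
      have hST : Disjoint S T := Finset.disjoint_of_subset_left hS (Finset.disjoint_of_subset_right hT hd)
      refine ⟨S ∪ T, ?_, ?_, ?_⟩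
      · rw [← hU]; exact Finset.union_subset_union hS hT
      · intro v hv
        rw [dIn_union G hST]
        rcases Finset.mem_union.mp hv with h | h
        · rw [dIn_none G (T := T) (v := v) (fun w hw => hor v (hS h) w (hT hw)), add_zero]
          exact hS1 v h
        · rw [dIn_none G (T := S) (v := v) (fun w hw h' => hor w (hS hw) v (hT h) h'.symm), zero_add]
          exact hT1 v h
      · rw [Finset.card_union_of_disjoint hST]
        omega

theorem mos_bdd (G : SimpleGraph V) : BddAbove {k | ∃ S : Finset V, S.card = k ∧ IsOddSet G S} := by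
  refine ⟨Fintype.card V, ?_⟩
  rintro k ⟨S, rfl, _⟩
  exact Finset.card_le_univ S

theorem mos_spec (G : SimpleGraph V) : ∃ S : Finset V, S.card = mos G ∧ IsOddSet G S := by
  have := Nat.sSup_mem (s := {k | ∃ S : Finset V, S.card = k ∧ IsOddSet G S})
    ⟨0, ∅, rfl, by intro v hv; simp at hv⟩ (mos_bdd G)
  exact this

theorem mos_lower (G : SimpleGraph V) (hG : IsCograph G) (hiso : NoIsolated G) :
    2 * ((Fintype.card V + 5) / 6) ≤ mos G := by
  obtain ⟨S, _, h1, h2⟩ := lower G (P4free_of_isCograph G hG) _ (univ : Finset V) rfl (by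
    intro v _
    obtain ⟨w, hw⟩ := hiso v
    exact ⟨w, mem_univ _, hw⟩)
  have h3 : S.card ≤ mos G := le_csSup (mos_bdd G) ⟨S, rfl, h1⟩
  have h4 := even_card_of_isOddSet G h1
  rw [Nat.even_iff] at h4
  rw [Finset.card_univ] at h2
  omega

end Lower

/-! ### The example -/

/-- disjoint union of `B` complete multipartite graphs with parts of size at most two -/
def ex (n B : ℕ) : SimpleGraph (Fin n) where
  Adj v w := v.val % B = w.val % B ∧ (v.val / B) % 3 ≠ (w.val / B) % 3
  symm := ⟨fun _ _ h => ⟨h.1.symm, h.2.symm⟩⟩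
  loopless := ⟨fun _ h => h.2 rfl⟩

theorem ex_adj {n B : ℕ} {v w : Fin n} :
    (ex n B).Adj v w ↔ v.val % B = w.val % B ∧ (v.val / B) % 3 ≠ (w.val / B) % 3 := Iff.rfl

theorem ex_P4free (n B : ℕ) : P4free (ex n B) := by
  intro a b c d hab hbc hcd hac hbd had
  simp only [ex] at *
  push Not at hac had
  have h1 := hac (hab.1.trans hbc.1)
  have h2 := had (hab.1.trans (hbc.1.trans hcd.1))
  exact hcd.2 (h1.symm.trans h2)

theorem ex_noIsolated (n B : ℕ) (hB : 0 < B) (h2 : 2 * B ≤ n) : NoIsolated (ex n B) := by
  intro v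
  have hr : v.val % B < B := Nat.mod_lt _ hB
  by_cases h : (v.val / B) % 3 = 0
  · refine ⟨⟨v.val % B + B, by omega⟩, ?_⟩
    simp only [ex]
    refine ⟨?_, ?_⟩
    · rw [Nat.add_mod_right, Nat.mod_mod]
    · rw [Nat.add_div_right _ hB, Nat.div_eq_of_lt hr, h]
      decide
  · refine ⟨⟨v.val % B, by omega⟩, ?_⟩
    simp only [ex]
    refine ⟨?_, ?_⟩
    · rw [Nat.mod_mod]
    · rw [Nat.div_eq_of_lt hr]
      simpa using h

theorem ex_mos (n B : ℕ) (hB : 0 < B) (h6 : n ≤ 6 * B) : mos (ex n B) ≤ 2 * B := by
  classical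
  obtain ⟨S, hS, hodd⟩ := mos_spec (ex n B)
  rw [← hS]
  have hmaps : Set.MapsTo (fun v : Fin n => v.val % B) (S : Set (Fin n)) (Finset.range B : Set ℕ) := by
    intro v _
    simp only [coe_range, Set.mem_Iio]
    exact Nat.mod_lt _ hB
  rw [Finset.card_eq_sum_card_fiberwise hmaps]
  have : ∀ r ∈ Finset.range B, (S.filter fun v => v.val % B = r).card ≤ 2 := by
    intro r _
    set T := S.filter fun v => v.val % B = r with hT
    have hgrp : ∀ i, (T.filter fun v => (v.val / B) % 3 = i).card ≤ 2 := by
      intro i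
      have : (T.filter fun v => (v.val / B) % 3 = i).card ≤ ({i, i + 3} : Finset ℕ).card := by
        apply Finset.card_le_card_of_injOn (fun v => v.val / B)
        · intro v hv
          simp only [coe_filter, Set.mem_ofPred_eq] at hv
          have h5 : v.val / B < 6 := by
            rw [Nat.div_lt_iff_lt_mul hB]
            exact lt_of_lt_of_le v.isLt h6
          simp only [coe_insert, coe_singleton, Set.mem_insert_iff, Set.mem_singleton_iff]
          have h7 := hv.2
          generalize v.val / B = q at h5 h7 ⊢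
          omega
        · intro v hv w hw hvw
          simp only [hT, coe_filter, mem_filter, Set.mem_ofPred_eq] at hv hw hvw
          apply Fin.ext
          rw [← Nat.div_add_mod v.val B, ← Nat.div_add_mod w.val B, hvw, hv.1.2, hw.1.2]
      exact this.trans (Finset.card_le_two)
    have hdeg : ∀ v ∈ T, dIn (ex n B) S v + (T.filter fun w => (w.val / B) % 3 = (v.val / B) % 3).card = T.card := by
      intro v hv
      rw [dIn, ← Finset.card_union_of_disjoint]
      · congr 1
        ext w
        rw [hT, mem_filter] at hv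
        simp only [hT, mem_union, mem_filter, ex_adj]
        constructor
        · rintro (⟨h1, h2, h3⟩ | ⟨h1, h2⟩)
          · exact ⟨h1, h2.symm.trans hv.2⟩
          · exact h1
        · rintro ⟨h1, h2⟩
          by_cases h3 : (w.val / B) % 3 = (v.val / B) % 3
          · right; exact ⟨⟨h1, h2⟩, h3⟩
          · left; exact ⟨h1, hv.2.trans h2.symm, fun h => h3 h.symm⟩
      · rw [Finset.disjoint_left]
        intro w hw hw'
        simp only [mem_filter, ex_adj] at hw hw'
        exact hw.2.2 hw'.2.symm
    have hT3 : T.card = (T.filter fun v => (v.val / B) % 3 = 0).card + (T.filter fun v => (v.val / B) % 3 = 1).card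
        + (T.filter fun v => (v.val / B) % 3 = 2).card := by
      have hm : Set.MapsTo (fun v : Fin n => (v.val / B) % 3) (T : Set (Fin n)) (Finset.range 3 : Set ℕ) := by
        intro v _
        simp only [coe_range, Set.mem_Iio]
        exact Nat.mod_lt _ (by norm_num)
      rw [Finset.card_eq_sum_card_fiberwise hm]
      simp [Finset.sum_range_succ]
    have hpar : ∀ i, (T.filter fun v => (v.val / B) % 3 = i).card = 0 ∨
        (T.card - (T.filter fun v => (v.val / B) % 3 = i).card) % 2 = 1 := by
      intro i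
      by_cases h : (T.filter fun v => (v.val / B) % 3 = i).card = 0
      · exact Or.inl h
      · right
        rw [Finset.card_eq_zero, ← Ne, ← Finset.nonempty_iff_ne_empty] at h
        obtain ⟨v, hv⟩ := h
        rw [mem_filter] at hv
        have h1 := hdeg v hv.1
        rw [hv.2] at h1
        have h2 := hodd v (by rw [hT, mem_filter] at hv; exact hv.1.1)
        rw [Nat.odd_iff] at h2
        omega
    have g0 := hgrp 0
    have g1 := hgrp 1
    have g2 := hgrp 2
    have p0 := hpar 0
    have p1 := hpar 1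
    have p2 := hpar 2
    omega
  calc ∑ r ∈ Finset.range B, (S.filter fun v => v.val % B = r).card ≤ ∑ r ∈ Finset.range B, 2 := Finset.sum_le_sum this
    _ = 2 * B := by simp [mul_comm]

/-- **Theorem.** For every `n ≥ 2`, the least `mos G` over all cographs `G` on `n` vertices without
isolated vertices is `2 ⌈n / 6⌉` (and `⌈n / 6⌉ = ⌊(n + 5) / 6⌋`). -/
theorem result (n : ℕ) (hn : 2 ≤ n) : m n = 2 * ((n + 5) / 6) := by
  have hB : 0 < (n + 5) / 6 := by omega
  have hex : IsCograph (ex n ((n + 5) / 6)) := isCograph_of_P4free _ (ex_P4free _ _)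
  have hex2 : NoIsolated (ex n ((n + 5) / 6)) := ex_noIsolated _ _ hB (by omega)
  have hex3 : mos (ex n ((n + 5) / 6)) ≤ 2 * ((n + 5) / 6) := ex_mos _ _ hB (by omega)
  have hmem : mos (ex n ((n + 5) / 6)) ∈
      {k | ∃ G : SimpleGraph (Fin n), IsCograph G ∧ NoIsolated G ∧ mos G = k} :=
    ⟨_, hex, hex2, rfl⟩
  unfold m
  apply le_antisymm
  · exact (Nat.sInf_le hmem).trans hex3
  · apply le_csInf ⟨_, hmem⟩
    rintro k ⟨G, h1, h2, rfl⟩
    have := mos_lower G h1 h2
    rwa [Fintype.card_fin] at this

end Pool.Agent.Results.MP_007251_co.OddCograph
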